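import Mathlib
import Pool.Agent.Lib.MP_c37615_al.Defs

/-!
MP_c37615_al (S02984), part D: core definitions (the linear map `Ev`, the sign function, root vectors).
See /team-store/MP_c37615_PAPER.md, sections 1 and 6.
-/

set_option autoImplicit false

namespace C37

/-- standard basis vector -/
def ev (k : Fin 7) : V := Pi.single k 1

/-- matrix of `v ↦ cross w v` -/
def Lmat (w : V) : Mat := Matrix.of fun i j => cross w (ev j) i

/-- signs of the form `B` -/
def sg : Fin 7 → ℝ := ![1, 1, 1, -1, -1, -1, -1]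

/-- `Ev M` is the vector with `B (Ev M) w = trace (Lmat w * M)`; LINEAR in `M` -/
noncomputable def Ev (M : Mat) : V := fun k => sg k * (Lmat (ev k) * M).trace

/-- the sign function of the affine map `v ↦ g v + u` -/
noncomputable def FF (g : Mat) (u : V) : ℝ := (g.trace + 1) * B u (Ev g)

/-- loxodromic elements (all eigenvalues real or not, exactly one of modulus one) -/
def Hyp (g : Mat) : Prop := B (Ev g) (Ev g) < 0 ∧ g.trace ≠ -1

/-- rank one matrix `v ↦ B y v • x` -/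
def rk1 (x y : V) : Mat := Matrix.of fun i j => x i * (sg j * y j)

/-- matrix of the linear map sending the null basis `va,x1,x2,x3,y1,y2,y3` to the given vectors.
(inverse coordinates: `va`-coordinate of v is `v 3`, `x1`: `v 0 - v 4`, `y1`: `-(v 0 + v 4)`, `x2`: `v 1 - v 5`,
`y2`: `-(v 1 + v 5)`, `x3`: `-(v 2 + v 6)`, `y3`: `v 2 - v 6`.) -/
noncomputable def ofNull (fa f1 f2 f3 g1 g2 g3 : V) : Mat :=
  Matrix.of fun i j =>
    (ev j 3) * fa i + (ev j 0 - ev j 4) * f1 i + (ev j 1 - ev j 5) * f2 i + (-(ev j 2 + ev j 6)) * f3 i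
      + (-(ev j 0 + ev j 4)) * g1 i + (-(ev j 1 + ev j 5)) * g2 i + (ev j 2 - ev j 6) * g3 i

/-- long root vectors -/
noncomputable def rL12 : Mat := ofNull 0 0 (-x1) 0 y2 0 0
noncomputable def rL13 : Mat := ofNull 0 0 0 (-x1) y3 0 0
noncomputable def rL23 : Mat := ofNull 0 0 0 (-x2) 0 y3 0
noncomputable def rL21 : Mat := ofNull 0 (-x2) 0 0 0 y1 0
noncomputable def rL31 : Mat := ofNull 0 (-x3) 0 0 0 0 y1
noncomputable def rL32 : Mat := ofNull 0 0 (-x3) 0 0 0 y2
/-- short root vectors -/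
noncomputable def rSp1 : Mat := ofNull ((2:ℝ) • x1) 0 y3 (-y2) (-va) 0 0
noncomputable def rSp2 : Mat := ofNull ((-2:ℝ) • x2) y3 0 (-y1) 0 va 0
noncomputable def rSp3 : Mat := ofNull ((2:ℝ) • x3) y2 (-y1) 0 0 0 (-va)
noncomputable def rSm1 : Mat := ofNull y1 ((-1/2:ℝ) • va) 0 0 0 ((1/2:ℝ) • x3) ((-1/2:ℝ) • x2)
noncomputable def rSm2 : Mat := ofNull y2 0 ((-1/2:ℝ) • va) 0 ((-1/2:ℝ) • x3) 0 ((1/2:ℝ) • x1)
noncomputable def rSm3 : Mat := ofNull y3 0 0 ((-1/2:ℝ) • va) ((1/2:ℝ) • x2) ((-1/2:ℝ) • x1) 0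

/-- the element `H0` of the Cartan algebra with weights (x2,y3 : 1), (x3,y2 : -1), others 0 : exponential -/
noncomputable def eH0 (r : ℝ) : Mat :=
  ofNull va x1 (Real.exp r • x2) (Real.exp (-r) • x3) y1 (Real.exp (-r) • y2) (Real.exp r • y3)

/-- exponential of a nilpotent matrix with Z^3 = 0 -/
noncomputable def expZ (Z : Mat) (s : ℝ) : Mat := 1 + s • Z + (s ^ 2 / 2) • (Z * Z)

/-- translation part of the affine one-parameter group of (Z, a), Z^3 = 0 -/
noncomputable def trZ (Z : Mat) (a : V) (s : ℝ) : V :=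
  s • a + (s ^ 2 / 2) • Z.mulVec a + (s ^ 3 / 6) • (Z * Z).mulVec a

/-- linear part of an affine map -/
noncomputable def tv (γ : V ≃ᵃ[ℝ] V) : V := γ 0

/-- a sequence in Γ close to the affine one-parameter group of (Z, a) : γ_j = E_j b_j = b_j E_j,
E_j = exp(s_j (Z,a)), b_j → 1, s_j → +∞ -/
structure NearOne (Γ : Subgroup (V ≃ᵃ[ℝ] V)) (Z : Mat) (a : V) (γ b : ℕ → V ≃ᵃ[ℝ] V) (s : ℕ → ℝ) : Prop where
  mem : ∀ j, γ j ∈ Γ
  left : ∀ j v, γ j v = b j ((expZ Z (s j)).mulVec v + trZ Z a (s j))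
  right : ∀ j v, γ j v = (expZ Z (s j)).mulVec (b j v) + trZ Z a (s j)
  blin : Filter.Tendsto (fun j => lin (b j)) Filter.atTop (nhds 1)
  btr : Filter.Tendsto (fun j => tv (b j)) Filter.atTop (nhds 0)
  sinf : Filter.Tendsto s Filter.atTop Filter.atTop

end C37
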