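import Mathlib
import Pool.Agent.Lib.MP_c37615_al.Defs
import Pool.Agent.Lib.MP_c37615_al.D.Core

/-!
MP_c37615_al D TASK T01: `Lmat` and `Ev`, basic facts.

All of these are finite computations over the coordinates (`Fin 7`): unfold `Lmat`, `cross`, `B`, `ev`, `sg`, `Ev`,
use `Fin.sum_univ_succ` / `Matrix.trace`, `simp`, `ring`.
For `B_Ev`: `B (Ev M) w = Σ_k sg k * (sg k * trace (Lmat (ev k) * M)) * w k = trace (Lmat w * M)` because `sg k ^ 2 = 1` and
`w = Σ w_k e_k`, `Lmat` linear.
-/

set_option autoImplicit false

namespace C37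

theorem cross_add_left (u u' v : V) : cross (u + u') v = cross u v + cross u' v := by
  ext i; fin_cases i <;> simp [cross] <;> ring
theorem cross_add_right (u v v' : V) : cross u (v + v') = cross u v + cross u v' := by
  ext i; fin_cases i <;> simp [cross] <;> ring
theorem cross_smul_left (c : ℝ) (u v : V) : cross (c • u) v = c • cross u v := by
  ext i; fin_cases i <;> simp [cross] <;> ring
theorem cross_smul_right (c : ℝ) (u v : V) : cross u (c • v) = c • cross u v := by
  ext i; fin_cases i <;> simp [cross] <;> ring
theorem cross_anti (u v : V) : cross u v = -cross v u := by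
  ext i; fin_cases i <;> simp [cross] <;> ring
theorem cross_self (u : V) : cross u u = 0 := by
  ext i; fin_cases i <;> simp [cross] <;> ring
theorem B_comm (u v : V) : B u v = B v u := by
  unfold B; ring
theorem B_add_left (u u' v : V) : B (u + u') v = B u v + B u' v := by
  simp only [B, Pi.add_apply]; ring
theorem B_smul_left (c : ℝ) (u v : V) : B (c • u) v = c * B u v := by
  simp only [B, Pi.smul_apply, smul_eq_mul]; ring
theorem B_add_right (u v v' : V) : B u (v + v') = B u v + B u v' := by
  simp only [B, Pi.add_apply]; ring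
theorem B_smul_right (c : ℝ) (u v : V) : B u (c • v) = c * B u v := by
  simp only [B, Pi.smul_apply, smul_eq_mul]; ring
/-- nondegeneracy -/
theorem B_nondeg (u : V) (h : ∀ v, B u v = 0) : u = 0 := by
  ext k
  have := h (ev k)
  fin_cases k <;> simpa [B, ev, Pi.single_apply] using this
/-- invariance of the triple product -/
theorem B_cross_cycl (u v w : V) : B (cross u v) w = B u (cross v w) := by
  simp [B, cross]; ring
theorem Lmat_mulVec (w v : V) : (Lmat w).mulVec v = cross w v := by
  ext i
  simp only [Lmat, Matrix.mulVec, dotProduct, Matrix.of_apply, Fin.sum_univ_succ, Fin.sum_univ_zero]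
  fin_cases i <;> simp [cross, ev, Pi.single_apply] <;> ring
theorem Lmat_add (w w' : V) : Lmat (w + w') = Lmat w + Lmat w' := by
  ext i j
  simp only [Lmat, Matrix.of_apply, Matrix.add_apply, cross_add_left, Pi.add_apply]
theorem Lmat_smul (c : ℝ) (w : V) : Lmat (c • w) = c • Lmat w := by
  ext i j
  simp only [Lmat, Matrix.of_apply, Matrix.smul_apply, cross_smul_left, Pi.smul_apply]
theorem B_Ev (M : Mat) (w : V) : B (Ev M) w = (Lmat w * M).trace := by
  have hw : w = w 0 • ev 0 + w 1 • ev 1 + w 2 • ev 2 + w 3 • ev 3 + w 4 • ev 4 + w 5 • ev 5 +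
      w 6 • ev 6 := by
    ext i; fin_cases i <;> simp [ev, Pi.single_apply]
  conv_rhs => rw [hw]
  simp only [Lmat_add, Lmat_smul, add_mul, smul_mul_assoc, Matrix.trace_add, Matrix.trace_smul,
    smul_eq_mul]
  simp only [B, Ev, sg]
  simp
  ring
theorem Ev_add (M M' : Mat) : Ev (M + M') = Ev M + Ev M' := by
  ext k
  simp only [Ev, Pi.add_apply, mul_add, Matrix.trace_add]
theorem Ev_smul (c : ℝ) (M : Mat) : Ev (c • M) = c • Ev M := by
  ext k
  simp only [Ev, Pi.smul_apply, mul_smul_comm, Matrix.trace_smul, smul_eq_mul]
  ring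
theorem continuous_Ev : Continuous Ev := by
  refine continuous_pi (fun k => ?_)
  unfold Ev
  exact continuous_const.mul (Continuous.matrix_trace (Continuous.matrix_mul continuous_const
    continuous_id))
theorem continuous_Bself : Continuous (fun u : V => B u u) := by
  unfold B
  fun_prop

end C37
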