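import Mathlib
import Pool.Agent.Lib.MP_c37615_al.Defs
import Pool.Agent.Lib.MP_c37615_al.D.Core
import Pool.Agent.Lib.MP_c37615_al.D.T01

/-!
MP_c37615_al D TASK T03: rank one matrices `rk1 x y : v ↦ B y v • x`.

`Ev_rk1`: B (Ev (rk1 x y)) w = trace (Lmat w * rk1 x y) = trace (rk1 (cross w x) y) = B y (cross w x) = B (cross x y) w.
-/

set_option autoImplicit false

namespace C37

theorem T03_ext (A A' : Mat) (h : ∀ v : V, A.mulVec v = A'.mulVec v) : A = A' :=
  Matrix.mulVec_injective (funext h)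

theorem T03_Bext (u u' : V) (h : ∀ v, B u v = B u' v) : u = u' := by
  have h1 : u + (-1 : ℝ) • u' = 0 := by
    refine B_nondeg _ (fun v => ?_)
    rw [B_add_left, B_smul_left, h v]
    ring
  have h2 : u = (u + (-1 : ℝ) • u') + u' := by
    ext i
    simp
  rw [h2, h1, zero_add]

theorem T03_B (u v : V) : B u v = ∑ j, sg j * u j * v j := by
  unfold B sg
  simp only [Fin.sum_univ_succ, Fin.sum_univ_zero]
  simp
  ring

theorem rk1_mulVec (x y v : V) : (rk1 x y).mulVec v = (B y v) • x := by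
  ext i
  simp only [rk1, Matrix.mulVec, dotProduct, Matrix.of_apply, Pi.smul_apply, smul_eq_mul]
  rw [T03_B, Finset.sum_mul]
  refine Finset.sum_congr rfl (fun j _ => ?_)
  ring
theorem mul_rk1 (M : Mat) (x y : V) : M * rk1 x y = rk1 (M.mulVec x) y := by
  refine T03_ext _ _ (fun v => ?_)
  rw [← Matrix.mulVec_mulVec, rk1_mulVec, rk1_mulVec, Matrix.mulVec_smul]
theorem rk1_mul_anti (x y : V) (N : Mat) (hN : ∀ u v, B (N.mulVec u) v = -B u (N.mulVec v)) :
    rk1 x y * N = rk1 x (-(N.mulVec y)) := by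
  refine T03_ext _ _ (fun v => ?_)
  rw [← Matrix.mulVec_mulVec, rk1_mulVec, rk1_mulVec]
  congr 1
  have h1 := hN y v
  have h2 : B (-(N.mulVec y)) v = -B (N.mulVec y) v := by
    simp [B]
    ring
  rw [h2, h1, neg_neg]
theorem rk1_mul_iso (x y : V) (g : Mat) (hg : ∀ u v, B (g.mulVec u) (g.mulVec v) = B u v) (hu : IsUnit g.det) :
    rk1 x y * g = rk1 x (g⁻¹.mulVec y) := by
  refine T03_ext _ _ (fun v => ?_)
  rw [← Matrix.mulVec_mulVec, rk1_mulVec, rk1_mulVec]
  congr 1
  rw [← hg (g⁻¹.mulVec y) v, Matrix.mulVec_mulVec, Matrix.mul_nonsing_inv g hu,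
    Matrix.one_mulVec]
theorem trace_rk1 (x y : V) : (rk1 x y).trace = B y x := by
  rw [T03_B]
  simp only [rk1, Matrix.trace, Matrix.diag_apply, Matrix.of_apply]
  refine Finset.sum_congr rfl (fun j _ => ?_)
  ring
theorem Ev_rk1 (x y : V) : Ev (rk1 x y) = cross x y := by
  refine T03_Bext _ _ (fun w => ?_)
  rw [B_Ev, mul_rk1, Lmat_mulVec, trace_rk1]
  simp [B, cross]
  ring
theorem rk1_smul_left (c : ℝ) (x y : V) : rk1 (c • x) y = c • rk1 x y := by
  ext i j
  simp only [rk1, Matrix.of_apply, Matrix.smul_apply, Pi.smul_apply, smul_eq_mul]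
  ring
theorem rk1_eq_zero (x y : V) (h : rk1 x y = 0) : x = 0 ∨ y = 0 := by
  by_cases hy : y = 0
  · exact Or.inr hy
  · left
    have h1 : ∃ v, B y v ≠ 0 := by
      by_contra hcon
      push Not at hcon
      exact hy (B_nondeg y hcon)
    obtain ⟨v, hv⟩ := h1
    have h2 := rk1_mulVec x y v
    rw [h, Matrix.zero_mulVec] at h2
    rcases smul_eq_zero.1 h2.symm with h3 | h3
    · exact absurd h3 hv
    · exact h3
/-- for a null vector x -/
theorem q_cross_null (x y : V) (hx : B x x = 0) : B (cross x y) (cross x y) = -(B x y) ^ 2 := by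
  rw [q_cross, hx]
  ring

end C37
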