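import Mathlib
import Pool.Agent.Lib.MP_c37615_al.Defs
import Pool.Agent.Lib.MP_c37615_al.Defs2
import Pool.Agent.Lib.MP_c37615_al.D.Core
import Pool.Agent.Lib.MP_c37615_al.D.T01

/-!
MP_c37615_al D TASK T05: elements of the stabiliser SL_3 of `va`.

`trace_stab`, `Ev_stab`: g is determined by its values on the null basis: g = ofNull va (g x1) (g x2) (g x3) (g y1) (g y2) (g y3) (the coordinates of the
standard basis vectors in the null basis are in the docstring of `ofNull`), and g x_j = Σ_i A i j x_i, g y_j = Σ_i (A⁻¹)ᵀ i j y_i.  So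
trace g = 1 + trace A + trace A⁻¹ and B (Ev g) w = trace (Lmat w * g) = -(trace A - trace A⁻¹) * B va w (check on w = null basis, use the multiplication table:
cross va x_i = x_i, cross va y_i = - y_i, cross x_i y_i = va/2, others give traceless contributions).
-/

set_option autoImplicit false

namespace C37

theorem T05_ofNull (g : Mat) : g = ofNull (g.mulVec va) (g.mulVec x1) (g.mulVec x2)
    (g.mulVec x3) (g.mulVec y1) (g.mulVec y2) (g.mulVec y3) := by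
  ext i j
  simp only [ofNull, Matrix.of_apply, Matrix.mulVec, dotProduct, Fin.sum_univ_succ,
    Fin.sum_univ_zero]
  fin_cases j <;> simp [ev, va, x1, x2, x3, y1, y2, y3] <;> ring

theorem T05_par (c a : Fin 3 → ℝ) (hc : c ≠ 0) (h0 : c 1 * a 2 - c 2 * a 1 = 0)
    (h1 : c 2 * a 0 - c 0 * a 2 = 0) (h2 : c 0 * a 1 - c 1 * a 0 = 0) : ∃ t : ℝ, a = t • c := by
  have h3 : ∃ i, c i ≠ 0 := by
    by_contra hcon
    push Not at hcon
    exact hc (funext hcon)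
  obtain ⟨i, hi⟩ := h3
  refine ⟨a i / c i, ?_⟩
  funext j
  rw [Pi.smul_apply, smul_eq_mul, div_mul_eq_mul_div, eq_div_iff hi]
  fin_cases i <;> fin_cases j <;> simp only [Fin.zero_eta, Fin.mk_one, Fin.reduceFinMk] <;>
    linarith

theorem T05_cxx (c a : Fin 3 → ℝ) : cross (xv c) (xv a) =
    yv ![c 1 * a 2 - c 2 * a 1, c 2 * a 0 - c 0 * a 2, c 0 * a 1 - c 1 * a 0] := by
  ext i
  fin_cases i <;> simp [cross, xv, yv, x1, x2, x3, y1, y2, y3] <;> ring

theorem T05_cyy (c a : Fin 3 → ℝ) : cross (yv c) (yv a) =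
    xv ![-(c 1 * a 2 - c 2 * a 1), -(c 2 * a 0 - c 0 * a 2), -(c 0 * a 1 - c 1 * a 0)] := by
  ext i
  fin_cases i <;> simp [cross, xv, yv, x1, x2, x3, y1, y2, y3] <;> ring

theorem T05_cxa (c : Fin 3 → ℝ) (t : ℝ) : cross (xv c) (t • va) = xv (-t • c) := by
  ext i
  fin_cases i <;> simp [cross, xv, va, x1, x2, x3] <;> ring

theorem T05_cya (c : Fin 3 → ℝ) (t : ℝ) : cross (yv c) (t • va) = yv (t • c) := by
  ext i
  fin_cases i <;> simp [cross, yv, va, y1, y2, y3] <;> ring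

theorem T05_inv (A : Matrix (Fin 3) (Fin 3) ℝ) (hA : A.det = 1) : A⁻¹ = A.adjugate := by
  rw [Matrix.inv_def, hA, Ring.inverse_one, one_smul]

theorem det3_sub_one (A : Matrix (Fin 3) (Fin 3) ℝ) (hA : A.det = 1) : (A - 1).det = A.trace - (A⁻¹).trace := by
  rw [T05_inv A hA, Matrix.adjugate_fin_three]
  rw [Matrix.det_fin_three] at hA ⊢
  simp [Matrix.trace, Fin.sum_univ_succ]
  linarith
theorem det3_add_one (A : Matrix (Fin 3) (Fin 3) ℝ) (hA : A.det = 1) : (A + 1).det = A.trace + (A⁻¹).trace + 2 := by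
  rw [T05_inv A hA, Matrix.adjugate_fin_three]
  rw [Matrix.det_fin_three] at hA ⊢
  simp [Matrix.trace, Fin.sum_univ_succ]
  linarith

/-- `g` acts on the null basis through `A` -/
def StabBy (g : Mat) (A : Matrix (Fin 3) (Fin 3) ℝ) : Prop :=
  g.mulVec va = va ∧ (∀ c, g.mulVec (xv c) = xv (A.mulVec c)) ∧ (∀ c, g.mulVec (yv c) = yv ((A⁻¹).transpose.mulVec c))

theorem T05_stab (g : Mat) (A : Matrix (Fin 3) (Fin 3) ℝ) (h : StabBy g A) :
    g = ofNull va (A 0 0 • x1 + A 1 0 • x2 + A 2 0 • x3) (A 0 1 • x1 + A 1 1 • x2 + A 2 1 • x3)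
      (A 0 2 • x1 + A 1 2 • x2 + A 2 2 • x3)
      (A⁻¹ 0 0 • y1 + A⁻¹ 0 1 • y2 + A⁻¹ 0 2 • y3) (A⁻¹ 1 0 • y1 + A⁻¹ 1 1 • y2 + A⁻¹ 1 2 • y3)
      (A⁻¹ 2 0 • y1 + A⁻¹ 2 1 • y2 + A⁻¹ 2 2 • y3) := by
  have a1 : xv (Pi.single 0 1) = x1 := by simp [xv]
  have a2 : xv (Pi.single 1 1) = x2 := by simp [xv]
  have a3 : xv (Pi.single 2 1) = x3 := by simp [xv]
  have b1 : yv (Pi.single 0 1) = y1 := by simp [yv]
  have b2 : yv (Pi.single 1 1) = y2 := by simp [yv]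
  have b3 : yv (Pi.single 2 1) = y3 := by simp [yv]
  have hx := h.2.1
  have hy := h.2.2
  have c1 := hx (Pi.single 0 1)
  have c2 := hx (Pi.single 1 1)
  have c3 := hx (Pi.single 2 1)
  have d1 := hy (Pi.single 0 1)
  have d2 := hy (Pi.single 1 1)
  have d3 := hy (Pi.single 2 1)
  rw [a1] at c1
  rw [a2] at c2
  rw [a3] at c3
  rw [b1] at d1
  rw [b2] at d2
  rw [b3] at d3
  conv_lhs => rw [T05_ofNull g, h.1, c1, c2, c3, d1, d2, d3]
  congr 1 <;> simp [xv, yv]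

theorem trace_stab (g : Mat) (A : Matrix (Fin 3) (Fin 3) ℝ) (h : StabBy g A) :
    g.trace = 1 + A.trace + (A⁻¹).trace := by
  rw [T05_stab g A h]
  simp [ofNull, Matrix.trace, Fin.sum_univ_succ, ev, va, x1, x2, x3, y1, y2, y3]
  ring
theorem Ev_stab (g : Mat) (A : Matrix (Fin 3) (Fin 3) ℝ) (h : StabBy g A) :
    Ev g = (-(A.trace - (A⁻¹).trace)) • va := by
  rw [T05_stab g A h]
  ext k
  simp only [Ev, Lmat, Matrix.trace, Matrix.diag_apply, Matrix.mul_apply, Matrix.of_apply,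
    Fin.sum_univ_succ, Fin.sum_univ_zero, ofNull, Pi.smul_apply, smul_eq_mul]
  fin_cases k <;> simp [sg, cross, ev, va, x1, x2, x3, y1, y2, y3] <;> ring
/-- every vector is a combination of va, xv, yv -/
theorem exists_coords (v : V) : ∃ (t : ℝ) (c d : Fin 3 → ℝ), v = t • va + xv c + yv d := by
  refine ⟨v 3, ![v 0 - v 4, v 1 - v 5, -(v 2 + v 6)], ![-(v 0 + v 4), -(v 1 + v 5), v 2 - v 6], ?_⟩
  ext i
  fin_cases i <;> simp [xv, yv, va, x1, x2, x3, y1, y2, y3] <;> ring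
theorem coords_unique (t : ℝ) (c d : Fin 3 → ℝ) (h : t • va + xv c + yv d = 0) : t = 0 ∧ c = 0 ∧ d = 0 := by
  have e0 := congrFun h 0
  have e1 := congrFun h 1
  have e2 := congrFun h 2
  have e3 := congrFun h 3
  have e4 := congrFun h 4
  have e5 := congrFun h 5
  have e6 := congrFun h 6
  simp [xv, yv, va, x1, x2, x3, y1, y2, y3] at e0 e1 e2 e3 e4 e5 e6
  refine ⟨e3, ?_, ?_⟩
  · funext i
    fin_cases i <;> simp <;> linarith
  · funext i
    fin_cases i <;> simp <;> linarith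
theorem B_xv_yv (c d : Fin 3 → ℝ) : B (xv c) (yv d) = -(1/2) * (c 0 * d 0 + c 1 * d 1 + c 2 * d 2) := by
  simp [B, xv, yv, x1, x2, x3, y1, y2, y3]
  ring
theorem cross_xv_yv (c d : Fin 3 → ℝ) : cross (xv c) (yv d) = ((1/2) * (c 0 * d 0 + c 1 * d 1 + c 2 * d 2)) • va := by
  ext i
  fin_cases i <;> simp [cross, xv, yv, va, x1, x2, x3, y1, y2, y3] <;> ring
theorem B_xv_xv (c d : Fin 3 → ℝ) : B (xv c) (xv d) = 0 ∧ B (yv c) (yv d) = 0 ∧ B va (xv c) = 0 ∧ B va (yv c) = 0 := by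
  refine ⟨?_, ?_, ?_, ?_⟩ <;> simp [B, xv, yv, va, x1, x2, x3, y1, y2, y3] <;> ring
/-- kernel of cross product with a vector of span(x) -/
theorem ker_cross_xv (c : Fin 3 → ℝ) (hc : c ≠ 0) (v : V) (h : cross (xv c) v = 0) :
    ∃ (t : ℝ) (d : Fin 3 → ℝ), v = t • xv c + yv d ∧ d 0 * c 0 + d 1 * c 1 + d 2 * c 2 = 0 := by
  obtain ⟨t, a, b, rfl⟩ := exists_coords v
  rw [cross_add_right, cross_add_right, T05_cxa, T05_cxx, cross_xv_yv] at h
  obtain ⟨h1, h2, h3⟩ := coords_unique (1 / 2 * (c 0 * b 0 + c 1 * b 1 + c 2 * b 2)) (-t • c)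
    ![c 1 * a 2 - c 2 * a 1, c 2 * a 0 - c 0 * a 2, c 0 * a 1 - c 1 * a 0] (by rw [← h]; abel)
  have ht : t = 0 := by
    rcases smul_eq_zero.1 h2 with h4 | h4
    · linarith
    · exact absurd h4 hc
  have g0 := congrFun h3 0
  have g1 := congrFun h3 1
  have g2 := congrFun h3 2
  simp at g0 g1 g2
  obtain ⟨r, hr⟩ := T05_par c a hc g0 g1 g2
  refine ⟨r, b, ?_, by linarith⟩
  rw [hr, ht, zero_smul, zero_add]
  congr 1
  simp only [xv, Pi.smul_apply, smul_eq_mul, smul_add, smul_smul]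
theorem ker_cross_yv (c : Fin 3 → ℝ) (hc : c ≠ 0) (v : V) (h : cross (yv c) v = 0) :
    ∃ (t : ℝ) (d : Fin 3 → ℝ), v = t • yv c + xv d ∧ d 0 * c 0 + d 1 * c 1 + d 2 * c 2 = 0 := by
  obtain ⟨t, a, b, rfl⟩ := exists_coords v
  rw [cross_add_right, cross_add_right, T05_cya, T05_cyy, cross_anti (yv c), cross_xv_yv] at h
  obtain ⟨h1, h2, h3⟩ := coords_unique (-(1 / 2 * (a 0 * c 0 + a 1 * c 1 + a 2 * c 2)))
    ![-(c 1 * b 2 - c 2 * b 1), -(c 2 * b 0 - c 0 * b 2), -(c 0 * b 1 - c 1 * b 0)] (t • c)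
    (by rw [← h, neg_smul]; abel)
  have ht : t = 0 := by
    rcases smul_eq_zero.1 h3 with h4 | h4
    · exact h4
    · exact absurd h4 hc
  have g0 := congrFun h2 0
  have g1 := congrFun h2 1
  have g2 := congrFun h2 2
  simp at g0 g1 g2
  obtain ⟨r, hr⟩ := T05_par c b hc (by linarith) (by linarith) (by linarith)
  refine ⟨r, a, ?_, by linarith⟩
  rw [hr, ht, zero_smul, zero_add, add_comm]
  congr 1
  simp only [yv, Pi.smul_apply, smul_eq_mul, smul_add, smul_smul]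

end C37
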